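import Pool.Agent.W894.MB.Defs

/-! Project MB: bounded supports and pressing down for countable partial functions. -/

set_option autoImplicit false

namespace Pool.Agent.W427.MBPress

open Set Pool.Agent.W894.MB

universe u

/-- enumeration of a countable set -/
theorem enum {K : Type u} (S : Set K) (hS : S.Countable) :
    ∃ e : ℕ → Option K, (∀ y ∈ S, ∃ n, e n = some y) ∧ ∀ n y, e n = some y → y ∈ S := by
  have : Countable S := hS.to_subtype
  obtain ⟨enc⟩ := nonempty_encodable S
  refine ⟨fun n => (Encodable.decode (α := S) n).map Subtype.val, ?_, ?_⟩
  · intro y hy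
    refine ⟨Encodable.encode (⟨y, hy⟩ : S), ?_⟩
    simp only [Encodable.encodek, Option.map_some]
  · intro n y h
    simp only [Option.map_eq_some_iff] at h
    obtain ⟨a, -, ha⟩ := h
    rw [← ha]
    exact a.2

/-- regressive functions with values in `Option K` are constant on a set of `U` -/
theorem opt {K : Type u} [LinearOrder K] {U : Ultrafilter K} (hU : NormalMeasure U)
    (h : K → Option K) (hr : {x | ∀ z, h x = some z → z < x} ∈ U) :
    ∃ v : Option K, {x | h x = v} ∈ U := by
  by_cases h0 : {x | h x = none} ∈ U
  · exact ⟨none, h0⟩
  · have h1 : {x | h x = none}ᶜ ∈ U := (Ultrafilter.compl_mem_iff_notMem).2 h0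
    obtain ⟨a, ha⟩ := hU.normal (fun x => (h x).getD x) (by
      filter_upwards [h1, hr] with x hx1 hx2
      cases hx : h x with
      | none => exact absurd hx hx1
      | some z =>
        simp only [Option.getD_some]
        exact hx2 z hx)
    refine ⟨some a, ?_⟩
    filter_upwards [h1, ha] with x hx1 hx2
    cases hx : h x with
    | none => exact absurd hx hx1
    | some z =>
      have : (h x).getD x = a := hx2
      rw [hx, Option.getD_some] at this
      rw [this]

theorem main (_h1 : S_CONST.{u, u}) (h2 : S_SIGMA.{u}) : S_BDD.{u} ∧ S_PRESS.{u} := by
  classical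
  constructor
  · intro K _ _ U hU hN p
    obtain ⟨e, he1, he2⟩ := enum _ p.ctble
    have hA : (⋂ n, {x : K | ∀ y, e n = some y → y < x}) ∈ U := by
      refine h2 K U hU hN _ fun n => ?_
      cases hn : e n with
      | none =>
        filter_upwards with x y hy
        cases hy
      | some z =>
        filter_upwards [hU.tail z] with x hx y hy
        cases hy
        exact hx
    filter_upwards [hA] with x hx y hy
    rw [Set.mem_iInter] at hx
    obtain ⟨n, hn⟩ := he1 y hy
    exact hx n y hn
  · intro K _ _ U hU hN r
    have hex : ∀ x : K, ∃ e : ℕ → Option K,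
        (∀ y ∈ {y | y < x ∧ (r x).f y ≠ none}, ∃ n, e n = some y) ∧
        ∀ n y, e n = some y → y ∈ {y | y < x ∧ (r x).f y ≠ none} := fun x =>
      enum _ ((r x).ctble.mono fun y hy => hy.2)
    choose e he1 he2 using hex
    have hE : ∀ n, ∃ v : Option K, {x | e x n = v} ∈ U := fun n =>
      opt hU (fun x => e x n) (by
        filter_upwards with x z hz
        exact (he2 x n z hz).1)
    choose E hE using hE
    have hv : ∀ y, ∃ v : Option K, {x | (r x).f y = v} ∈ U := fun y =>
      opt hU (fun x => (r x).f y) (by
        filter_upwards [hU.tail y] with x hx z hz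
        exact lt_trans ((r x).regr y z hz) hx)
    choose v hv using hv
    have hcount : {y : K | ∃ n, E n = some y}.Countable :=
      (Set.countable_range E).preimage (Option.some_injective K)
    let s : Cond K :=
      { f := fun y => if ∃ n, E n = some y then v y else none
        ctble := hcount.mono fun y hy => by
          by_contra hcon
          apply hy
          have : ¬ ∃ n, E n = some y := hcon
          simp only [this, if_false]
        regr := fun x y hxy => by
          by_cases hx : ∃ n, E n = some x
          · simp only [hx, if_true] at hxy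
            obtain ⟨x', hx'⟩ := Ultrafilter.nonempty_of_mem (hv x)
            have h3 : (r x').f x = v x := hx'
            exact (r x').regr x y (h3.trans hxy)
          · simp only [hx, if_false] at hxy
            cases hxy }
    refine ⟨s, ?_⟩
    have hA1 : (⋂ n, {x : K | e x n = E n}) ∈ U := h2 K U hU hN _ hE
    have hA2 : (⋂ n, {x : K | ∀ y, E n = some y → (r x).f y = v y}) ∈ U := by
      refine h2 K U hU hN _ fun n => ?_
      cases hn : E n with
      | none =>
        filter_upwards with x y hy
        cases hy
      | some z =>
        filter_upwards [hv z] with x hx y hy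
        cases hy
        exact hx
    filter_upwards [hA1, hA2] with x hx1 hx2 y hy
    rw [Set.mem_iInter] at hx1 hx2
    by_cases hyS : ∃ n, E n = some y
    · have h3 : s.f y = v y := by
        change (if ∃ n, E n = some y then v y else none) = v y
        rw [if_pos hyS]
      rw [h3]
      obtain ⟨n, hn⟩ := hyS
      exact hx2 n y hn
    · have h3 : s.f y = none := by
        change (if ∃ n, E n = some y then v y else none) = none
        rw [if_neg hyS]
      rw [h3]
      by_contra hcon
      obtain ⟨n, hn⟩ := he1 x y ⟨hy, hcon⟩
      exact hyS ⟨n, (hx1 n).symm.trans hn⟩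

end Pool.Agent.W427.MBPress
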